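import Mathlib

set_option autoImplicit false

namespace Pool.Agent.Results.MP_16410b_al.Counter

open TensorProduct Coalgebra LinearMap
open scoped Quaternion

section
variable {k C B H : Type} [Field k] [AddCommGroup C] [Module k C] [Coalgebra k C] [Ring B]
  [Algebra k B] [Ring H] [HopfAlgebra k H]

/-- Convolution product `c ↦ f(c₁) g(c₂)`. -/
noncomputable def cv (f g : C →ₗ[k] B) : C →ₗ[k] B := mul' k B ∘ₗ TensorProduct.map f g ∘ₗ comul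

/-- `h ⊗ g ↦ σ(h₁, g₁) h₂ g₂`. -/
noncomputable def tw (σ : H ⊗[k] H →ₗ[k] k) : H ⊗[k] H →ₗ[k] H :=
  cv (Algebra.linearMap k H ∘ₗ σ) (mul' k H)

/-- `σ` is a normalized Sweedler cocycle with convolution inverse `τ`. -/
def Coc (σ τ : H ⊗[k] H →ₗ[k] k) : Prop :=
  cv σ τ = counit ∧ cv τ σ = counit ∧
  (∀ h g l, σ (tw σ (h ⊗ₜ g) ⊗ₜ l) = σ (h ⊗ₜ tw σ (g ⊗ₜ l))) ∧
  ∀ h, σ (h ⊗ₜ 1) = counit h ∧ σ (1 ⊗ₜ h) = counit h

/-- Doi's multiplication `σ(h₁, g₁) h₂ g₂ τ(h₃, g₃)`. -/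
noncomputable def doi (σ τ : H ⊗[k] H →ₗ[k] k) : H ⊗[k] H →ₗ[k] H :=
  cv (tw σ) (Algebra.linearMap k H ∘ₗ τ)

/-- The multiplication `(h ◁ r(g₁)) g₂` of `H_r`. -/
noncomputable def rp (a : H ⊗[k] B →ₗ[k] H) (r : H →ₗ[k] B) (h g : H) : H :=
  cv (a ∘ₗ TensorProduct.mk k H B h ∘ₗ r) .id g

/-- `r` is cocentral: `r(h₁) ⊗ h₂ = r(h₂) ⊗ h₁`. -/
def Cc (r : H →ₗ[k] B) : Prop :=
  r.rTensor H ∘ₗ comul = r.rTensor H ∘ₗ (TensorProduct.comm k H H).toLinearMap ∘ₗ comul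

/-- `H_σ` is isomorphic to no `H_r`. -/
def Bad (σ τ : H ⊗[k] H →ₗ[k] k) : Prop := ∀ (A : Type) [Ring A] [HopfAlgebra k A]
  (a : H ⊗[k] A →ₗ[k] H) (r : H →ₗ[k] A), (∀ h, a (h ⊗ₜ 1) = h) → r 1 = 1 → Cc r →
    ¬ ∃ e : H ≃ H, ∀ h g, e (doi σ τ (h ⊗ₜ g)) = rp a r (e h) (e g)
end

abbrev F := ZMod 2
abbrev S := ℍ[F, 1, 0, 0]
def g : S := ⟨0, 1, 0, 0⟩
def x : S := ⟨0, 0, 1, 0⟩
def y : S := ⟨0, 0, 0, 1⟩

lemma tb : g * g = 1 ∧ g * x = y ∧ x * g = -y ∧ x * x = 0 ∧ g * y = x ∧ y * g = -x ∧ x * y = 0 ∧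
    y * x = 0 ∧ y * y = 0 := by
  refine ⟨?_, ?_, ?_, ?_, ?_, ?_, ?_, ?_, ?_⟩ <;> ext <;> simp [g, x, y]

lemma hb {M : Type} [AddCommGroup M] [Module F M] {f f' : S →ₗ[F] M} (a : f 1 = f' 1)
    (b : f g = f' g) (c : f x = f' x) (d : f y = f' y) : f = f' := by
  ext z
  rw [show z = z.re • 1 + z.imI • g + z.imJ • x + z.imK • y by ext <;> simp [g, x, y]]
  simp only [map_add, map_smul, *]

noncomputable def Δ : S →ₐ[F] S ⊗[F] S := QuaternionAlgebra.Basis.liftHom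
  ⟨g ⊗ₜ g, x ⊗ₜ 1 + g ⊗ₜ x, y ⊗ₜ g + 1 ⊗ₜ y, by simp [tb, Algebra.TensorProduct.one_def],
    by simp [tb, mul_add, add_mul, neg_tmul], by simp [tb, mul_add],
    by simp [tb, add_mul, neg_tmul, tmul_neg, add_comm]⟩

def ε : S →ₐ[F] F := QuaternionAlgebra.Basis.liftHom ⟨1, 0, 0, by simp, by simp, by simp, by simp⟩

lemma dv : Δ g = g ⊗ₜ g ∧ Δ x = x ⊗ₜ 1 + g ⊗ₜ x ∧ Δ y = y ⊗ₜ g + 1 ⊗ₜ y := by
  simp [Δ, QuaternionAlgebra.Basis.lift, g, x, y]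

lemma ev (z : S) : ε z = z.re + z.imI := by simp [ε, QuaternionAlgebra.Basis.lift]

lemma ev' : ε g = 1 ∧ ε x = 0 ∧ ε y = 0 := by simp [ev, g, x, y]

noncomputable instance : Bialgebra F S := by
  refine .ofAlgHom Δ ε ?_ ?_ ?_ <;> apply AlgHom.toLinearMap_injective <;> apply hb <;>
    simp [dv, ev', add_tmul, tmul_add, add_assoc, Algebra.TensorProduct.one_def]

lemma cm (z : S) : comul z = Δ z := rfl
lemma cu (z : S) : counit z = ε z := rfl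

def an : S →ₗ[F] S := ⟨⟨fun z => ⟨z.re, z.imI, z.imK, -z.imJ⟩, fun _ _ => by ext <;> simp [add_comm]⟩,
  fun _ _ => by ext <;> simp⟩

lemma av : an 1 = 1 ∧ an g = g ∧ an x = -y ∧ an y = x := by
  refine ⟨?_, ?_, ?_, ?_⟩ <;> ext <;> simp [an, g, x, y]

noncomputable instance : HopfAlgebra F S where
  antipode := an
  mul_antipode_rTensor_comul := by
    apply hb <;> simp [cm, cu, dv, ev', av, tb, Algebra.TensorProduct.one_def]
  mul_antipode_lTensor_comul := by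
    apply hb <;> simp [cm, cu, dv, ev', av, tb, Algebra.TensorProduct.one_def]

open QuaternionAlgebra in
noncomputable def σ : S ⊗[F] S →ₗ[F] F := mul' F F ∘ₗ (TensorProduct.map ε.toLinearMap ε.toLinearMap +
  TensorProduct.map (imIₗ _ _ _) (imJₗ _ _ _ + imKₗ _ _ _))

lemma sv (a b : S) : σ (a ⊗ₜ b) = ε a * ε b + a.imI * (b.imJ + b.imK) := by simp [σ]

lemma co : g.re = 0 ∧ g.imI = 1 ∧ g.imJ = 0 ∧ g.imK = 0 ∧ x.re = 0 ∧ x.imI = 0 ∧ x.imJ = 1 ∧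
  x.imK = 0 ∧ y.re = 0 ∧ y.imI = 0 ∧ y.imJ = 0 ∧ y.imK = 1 := by simp [g, x, y]

open QuaternionAlgebra in
lemma tv : tw σ = mul' F S + mul' F S ∘ₗ TensorProduct.map
    ((imIₗ _ _ _).smulRight g + (imJₗ _ _ _).smulRight x)
    ((imJₗ _ _ _).smulRight 1 + (imKₗ _ _ _).smulRight g) := by
  apply TensorProduct.ext
  apply hb <;> apply hb <;>
    simp [tw, cv, cm, dv, sv, ev', co, tb, Algebra.TensorProduct.one_def, add_tmul, tmul_add]
  all_goals exact add_comm _ _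

theorem result : ¬ ∀ (k H : Type) [Field k] [Ring H] [HopfAlgebra k H]
    (σ τ : H ⊗[k] H →ₗ[k] k), Coc σ τ → ¬ Bad σ τ := by
  have I : cv σ σ = counit := by
    apply TensorProduct.ext
    apply hb <;> apply hb <;>
      simp [cv, cm, cu, dv, sv, ev', co, Algebra.TensorProduct.one_def, add_tmul, tmul_add]
    all_goals decide
  refine fun H => H F S σ σ ⟨I, I, fun a b c => ?_, fun h => by simp [sv, cu]⟩
    fun A _ _ a r h1 h2 h3 ⟨e, he⟩ => ?_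
  · obtain ⟨_, _, _, _⟩ := a
    obtain ⟨_, _, _, _⟩ := b
    obtain ⟨_, _, _, _⟩ := c
    simp [tv, sv, ev, co]
    decide +revert
  have u := fun φ : S →ₗ[F] F => fun z => congrArg (TensorProduct.rid F A ∘ lTensor A φ) congr($h3 z)
  have a1 := u (QuaternionAlgebra.reₗ _ _ _) x
  have a2 := u (QuaternionAlgebra.imJₗ _ _ _) x
  have a3 := u (QuaternionAlgebra.reₗ _ _ _) y
  simp [cm, dv, co, h2, eq_comm (a := (0 : A))] at a1 a2 a3
  have R : ∀ h z, rp a r h z = h * z := fun h z => by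
    refine congr($(hb (f := cv (a ∘ₗ TensorProduct.mk F S A h ∘ₗ r) .id) (f' := mulLeft F h)
      ?_ ?_ ?_ ?_) z) <;> simp [cv, cm, dv, *, Algebra.TensorProduct.one_def]
  have C : ∀ a b : S, a * b = b * a := fun ⟨_, _, _, _⟩ ⟨_, _, _, _⟩ => by
    ext <;> simp <;> decide +revert
  have := congrArg QuaternionAlgebra.re (e.injective ((he g x).trans (by rw [he x g, R, R, C])))
  simp [doi, cv, tv, cm, dv, sv, ev', co, tb, add_tmul, tmul_add] at this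

end Pool.Agent.Results.MP_16410b_al.Counter
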